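import Pool.Agent.Helper1.SQ.C1b
import Pool.Agent.Helper5.SQ.MT
import Pool.Agent.Helper68.SQ.L

/-!
# Project SC: counting form of the weighted sieve (master inequality, finite certificates)
-/

set_option autoImplicit false
open Finset

namespace Pool.Agent.Helper1.SQ

open Pool.Agent.Helper5.SQ

/-- the sifted integers with at most three prime factors -/
def S3 (N H a : ℕ) : Finset ℕ := (cnt N H 1 a).filter (fun m => ArithmeticFunction.cardFactors m ≤ 3)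

/-- master inequality, counting form -/
theorem mt3 (hW : Wt) (N H k Λ a : ℕ) (X : ℝ) (ha : 4 ≤ a) (hNH : N + H < 2 ^ (Λ + 1))
    (h40 : (0 : ℝ) ≤ 4 * (k : ℝ) - Λ)
    (hlt : ∑ i ∈ Ico a k, ((k : ℝ) - i) * ∑ p ∈ PB i (i + 1), (((cnt N H p a).card : ℝ) + hpw N H a p) <
      (4 * (k : ℝ) - Λ) * (((cnt N H 1 a).card : ℝ) - X)) :
    X < ((S3 N H a).card : ℝ) := by
  have hS : ∀ m ∈ cnt N H 1 a, m ∈ Ioc N (N + H) := by
    intro m hm
    unfold cnt at hm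
    exact (Finset.mem_filter.mp hm).1
  set T := (cnt N H 1 a).filter (fun m => ¬ ArithmeticFunction.cardFactors m ≤ 3) with hT
  have hcard : (S3 N H a).card + T.card = (cnt N H 1 a).card :=
    Finset.card_filter_add_card_filter_not _
  have h1 : ∀ m ∈ T, 4 * k ≤
      ∑ i ∈ Ico a k, ∑ p ∈ PB i (i + 1), m.factorization p * (k - i) + Λ := by
    intro m hmT
    rw [hT, Finset.mem_filter] at hmT
    obtain ⟨hm, h2⟩ := hmT
    have hmem := hS m hm
    rw [Finset.mem_Ioc] at hmem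
    have h3 := hW k Λ m (by omega) (by omega)
    have h4 := inner_le (k := k) hm
    have h5 : 4 * k ≤ k * ArithmeticFunction.cardFactors m := by
      rw [mul_comm]
      exact Nat.mul_le_mul_left k (by omega)
    omega
  have h2 : ∑ m ∈ T, 4 * k ≤ ∑ m ∈ T,
      (∑ i ∈ Ico a k, ∑ p ∈ PB i (i + 1), m.factorization p * (k - i) + Λ) :=
    Finset.sum_le_sum h1
  rw [Finset.sum_const, smul_eq_mul, Finset.sum_add_distrib, Finset.sum_const, smul_eq_mul] at h2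
  have h2' : ∑ m ∈ T, ∑ i ∈ Ico a k, ∑ p ∈ PB i (i + 1), m.factorization p * (k - i) ≤
      ∑ m ∈ cnt N H 1 a, ∑ i ∈ Ico a k, ∑ p ∈ PB i (i + 1), m.factorization p * (k - i) :=
    Finset.sum_le_sum_of_subset (Finset.filter_subset _ _)
  rw [Finset.sum_comm (s := cnt N H 1 a)] at h2'
  have h3 : ∑ i ∈ Ico a k, ∑ m ∈ cnt N H 1 a, ∑ p ∈ PB i (i + 1), m.factorization p * (k - i) ≤
      ∑ i ∈ Ico a k, (k - i) * ∑ p ∈ PB i (i + 1), ((cnt N H p a).card + hpw N H a p) := by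
    apply Finset.sum_le_sum
    intro i _
    rw [Finset.sum_comm, Finset.mul_sum]
    apply Finset.sum_le_sum
    intro p _
    rw [← Finset.sum_mul, mul_comm]
    exact Nat.mul_le_mul_left _ sum_fact_le
  have h4 : T.card * (4 * k) ≤
      ∑ i ∈ Ico a k, (k - i) * ∑ p ∈ PB i (i + 1), ((cnt N H p a).card + hpw N H a p) +
      T.card * Λ := by
    omega
  have h5 : ((T.card * (4 * k) : ℕ) : ℝ) ≤
      ((∑ i ∈ Ico a k, (k - i) * ∑ p ∈ PB i (i + 1), ((cnt N H p a).card + hpw N H a p) +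
      T.card * Λ : ℕ) : ℝ) := by exact_mod_cast h4
  push_cast at h5
  have h6 : ∑ i ∈ Ico a k, (((k - i : ℕ)) : ℝ) * ∑ p ∈ PB i (i + 1),
      (((cnt N H p a).card : ℝ) + hpw N H a p) =
      ∑ i ∈ Ico a k, ((k : ℝ) - i) * ∑ p ∈ PB i (i + 1),
      (((cnt N H p a).card : ℝ) + hpw N H a p) := by
    apply Finset.sum_congr rfl
    intro i hi
    rw [Finset.mem_Ico] at hi
    rw [Nat.cast_sub hi.2.le]
  rw [h6] at h5
  have h7 : (4 * (k : ℝ) - Λ) * (T.card : ℝ) < (4 * (k : ℝ) - Λ) * (((cnt N H 1 a).card : ℝ) - X) := by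
    linarith
  have h8 := lt_of_mul_lt_mul_left h7 h40
  have h9 : ((S3 N H a).card : ℝ) + T.card = ((cnt N H 1 a).card : ℝ) := by exact_mod_cast hcard
  linarith

namespace C

theorem core3 (H : Hyp) {N Hn Λ k a h I δ : ℕ} {ch : List (ℕ × ℕ)} {gs : List (ℕ × ℕ × List (ℕ × ℕ))}
    (ha4 : 4 ≤ a) (ha : a ≤ 8192) (hak : a ≤ k) (hΛ : Λ ≤ 4 * k)
    (hI : (D : ℝ) / vp 4 a ≤ I) (hH : 2 ^ h ≤ Hn) (hN : N + Hn < 2 ^ (Λ + 1))
    (hc : chOK a ch = true) (hg : grOK k a a gs = true)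
    (h1 : chR a ch + err I h (8 * (chN a ch * chM a ch)) + δ ≤ D)
    (h2 : grV I h k a a gs + hpV I h Λ k a + 1 ≤
      (4 * k - Λ) * (D - (chR a ch + err I h (8 * (chN a ch * chM a ch)) + δ))) :
    192 / 1001 * (Hn : ℝ) * vp 4 a * δ < (D : ℝ) * ((S3 N Hn a).card : ℝ) := by
  obtain ⟨P, R, E, M, hch, hP, hR, hE, hM⟩ := chain_sound H ch a ha hc
  obtain ⟨p0, r0, e0, m0⟩ := Ch_nonneg hch
  have hD := D_pos
  have hv := vp_pos 4 a
  have hHr : (2 : ℝ) ^ h ≤ Hn := by exact_mod_cast hH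
  have h2h : (0 : ℝ) < 2 ^ h := by positivity
  have hHn : (0 : ℝ) < (Hn : ℝ) := lt_of_lt_of_le h2h hHr
  set V : ℝ := 192 / 1001 * (Hn : ℝ) * vp 4 a with hV
  have hV0 : 0 < V := by positivity
  set r : ℕ := chR a ch + err I h (8 * (chN a ch * chM a ch)) with hr
  have hrD : (r : ℝ) ≤ (D : ℝ) := by exact_mod_cast le_trans (Nat.le_add_right r δ) h1
  have hR1 : R ≤ 1 := by
    have a1 : (D : ℝ) * R ≤ (D : ℝ) * 1 := by
      have a2 : (chR a ch : ℝ) ≤ (r : ℝ) := by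
        rw [hr]; push_cast
        have : (0 : ℝ) ≤ (err I h (8 * (chN a ch * chM a ch)) : ℝ) := Nat.cast_nonneg _
        linarith
      linarith
    exact le_of_mul_le_mul_left a1 hD
  have hlow := H.bhLow a P R E M hch hR1 N Hn
  -- lower bound for the count
  have hcnt : V * ((D : ℝ) - r) ≤ (D : ℝ) * ((cnt N Hn 1 a).card : ℝ) := by
    have herr := err_ge (a := a) hI (8 * (chN a ch * chM a ch)) hHr
    have hEM : E * M ≤ ((chN a ch * chM a ch : ℕ) : ℝ) := by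
      rw [Nat.cast_mul]
      exact mul_le_mul hE hM (by linarith) (Nat.cast_nonneg _)
    have b1 : (D : ℝ) * (8 * (E * M)) ≤ V * (err I h (8 * (chN a ch * chM a ch)) : ℕ) := by
      refine le_trans ?_ herr
      apply mul_le_mul_of_nonneg_left _ hD.le
      rw [Nat.cast_mul 8]
      push_cast at hEM ⊢
      linarith
    have b2 := mul_le_mul_of_nonneg_left hlow hD.le
    refine le_trans ?_ b2
    have b3 : (D : ℝ) * R * V ≤ chR a ch * V := mul_le_mul_of_nonneg_right hR hV0.le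
    rw [hr, Nat.cast_add]
    have b4 : (D : ℝ) * (192 / 1001 * (Hn : ℝ) * vp 4 a * (1 - R) - 8 * (E * M)) =
        V * D - D * R * V - D * (8 * (E * M)) := by rw [hV]; ring
    rw [b4]
    linarith
  have hup1 := groups_sound H (N := N) ha hI hH gs a le_rfl hak hg
  have hup2 := hp_sound H (k := k) ha4 hI hH hN
  have hsplit : ∑ i ∈ Ico a k, ((k : ℝ) - i) * ∑ p ∈ PB i (i + 1), (((cnt N Hn p a).card : ℝ) + hpw N Hn a p) =
      ∑ i ∈ Ico a k, ((k : ℝ) - i) * ∑ p ∈ PB i (i + 1), ((cnt N Hn p a).card : ℝ) +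
      ∑ i ∈ Ico a k, ((k : ℝ) - i) * ∑ p ∈ PB i (i + 1), (hpw N Hn a p : ℝ) := by
    rw [← Finset.sum_add_distrib]
    apply Finset.sum_congr rfl
    intro i _
    rw [Finset.sum_add_distrib]
    ring
  have e4 : ((4 * k - Λ : ℕ) : ℝ) = 4 * (k : ℝ) - Λ := by
    rw [Nat.cast_sub hΛ]; push_cast; ring
  have eD : ((D - (r + δ) : ℕ) : ℝ) = (D : ℝ) - r - δ := by
    rw [Nat.cast_sub h1, Nat.cast_add]
    ring
  have h2r : ((grV I h k a a gs : ℕ) : ℝ) + (hpV I h Λ k a : ℕ) + 1 ≤ (4 * (k : ℝ) - Λ) * ((D : ℝ) - r - δ) := by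
    rw [← e4, ← eD]
    exact_mod_cast h2
  have h40 : (0 : ℝ) ≤ 4 * (k : ℝ) - Λ := by
    rw [← e4]; exact Nat.cast_nonneg _
  -- multiply by D
  have hcnt3 : V * ((D : ℝ) - r - δ) ≤ (D : ℝ) * (((cnt N Hn 1 a).card : ℝ) - V * δ / D) := by
    have e5 : (D : ℝ) * (((cnt N Hn 1 a).card : ℝ) - V * δ / D) = D * ((cnt N Hn 1 a).card : ℝ) - V * δ := by
      field_simp
    rw [e5]
    linarith
  have hfin : (D : ℝ) * (∑ i ∈ Ico a k, ((k : ℝ) - i) * ∑ p ∈ PB i (i + 1), ((cnt N Hn p a).card : ℝ) +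
      ∑ i ∈ Ico a k, ((k : ℝ) - i) * ∑ p ∈ PB i (i + 1), (hpw N Hn a p : ℝ)) <
      (D : ℝ) * ((4 * (k : ℝ) - Λ) * (((cnt N Hn 1 a).card : ℝ) - V * δ / D)) := by
    rw [mul_add]
    calc _ ≤ V * ((grV I h k a a gs : ℕ) : ℝ) + V * ((hpV I h Λ k a : ℕ) : ℝ) := add_le_add hup1 hup2
      _ < V * ((4 * (k : ℝ) - Λ) * ((D : ℝ) - r - δ)) := by
          rw [← mul_add]
          apply mul_lt_mul_of_pos_left _ hV0
          linarith
      _ = (4 * (k : ℝ) - Λ) * (V * ((D : ℝ) - r - δ)) := by ring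
      _ ≤ (4 * (k : ℝ) - Λ) * ((D : ℝ) * (((cnt N Hn 1 a).card : ℝ) - V * δ / D)) :=
          mul_le_mul_of_nonneg_left hcnt3 h40
      _ = _ := by ring
  have hlt := lt_of_mul_lt_mul_left hfin hD.le
  rw [← hsplit] at hlt
  have hres := mt3 wt N Hn k Λ a (V * δ / D) ha4 hN h40 hlt
  rw [div_lt_iff₀ hD] at hres
  linarith

/-- the integers counted -/
def GS (n : ℕ) : Set ℕ := {m : ℕ | n ^ 2 < m ∧ m ≤ n ^ 2 + Nat.totient n ∧
  ArithmeticFunction.cardFactors m ≤ 3 ∧ ∀ p : ℕ, p.Prime → p ∣ m → n < p ^ 8}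

theorem GS_fin (n : ℕ) : (GS n).Finite :=
  (Finset.finite_toSet (Ioc (n ^ 2) (n ^ 2 + Nat.totient n))).subset (fun m hm => by
    rw [Finset.mem_coe, Finset.mem_Ioc]
    exact ⟨hm.1, hm.2.1⟩)

/-- the conclusion -/
def Good3 (n : ℕ) : Prop :=
  (Nat.totient n : ℝ) ≤ 110 * Real.log ((n : ℝ) + 1) * ((GS n).ncard : ℝ)

theorem S3_le {n a : ℕ} (ha : 4 ≤ a) (hna : n ≤ 2 ^ (8 * a)) :
    (S3 (n ^ 2) (Nat.totient n) a).card ≤ (GS n).ncard := by
  rw [← Set.ncard_coe_finset]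
  apply Set.ncard_le_ncard _ (GS_fin n)
  intro m hm
  rw [Finset.mem_coe] at hm
  unfold S3 at hm
  rw [Finset.mem_filter] at hm
  obtain ⟨hm, hm3⟩ := hm
  have hm' := hm
  unfold cnt at hm'
  rw [Finset.mem_filter, Finset.mem_Ioc] at hm'
  refine ⟨hm'.1.1, hm'.1.2, hm3, fun p hp hpm => ?_⟩
  have h1 := cnt_prime ha hm hp hpm
  calc n ≤ 2 ^ (8 * a) := hna
    _ = (2 ^ a) ^ 8 := by rw [← pow_mul]; congr 1; ring
    _ < p ^ 8 := Nat.pow_lt_pow_left h1 (by norm_num)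

/-- logarithm of `n + 1` from below -/
theorem log_low {n h : ℕ} (hφ : 2 ^ h ≤ Nat.totient n) : 693 * (h : ℝ) ≤ 1000 * Real.log ((n : ℝ) + 1) := by
  have h1 : Nat.totient n ≤ n := Nat.totient_le n
  have h2 : ((2 : ℝ) ^ h) ≤ (n : ℝ) + 1 := by
    have : 2 ^ h ≤ n + 1 := by omega
    exact_mod_cast this
  have h3 : Real.log ((2 : ℝ) ^ h) ≤ Real.log ((n : ℝ) + 1) := Real.log_le_log (by positivity) h2
  rw [Real.log_pow] at h3
  have h4 := Real.log_two_gt_d9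
  have h5 : (0 : ℝ) ≤ h := Nat.cast_nonneg h
  nlinarith

/-- the inequality with slack `δ`, `I = IVu 4 a` -/
def mainIneq3 (c : Cert) (δ I : ℕ) : Bool :=
  Nat.ble (chR c.a c.ch + err I c.h0 (8 * (chN c.a c.ch * chM c.a c.ch)) + δ) D &&
  (Nat.ble (grV I c.h0 c.k c.a c.a c.gr + hpV I c.h0 c.Λ c.k c.a + 1)
    ((4 * c.k - c.Λ) * (D - (chR c.a c.ch + err I c.h0 (8 * (chN c.a c.ch * chM c.a c.ch)) + δ))) &&
  Nat.ble (1001000 * I) (192 * 110 * 693 * c.h0 * δ))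

def check3 (c : Cert) (δ : ℕ) : Bool :=
  Nat.ble 4 c.a && (Nat.ble c.a 8192 && (Nat.ble c.a c.k && (Nat.ble c.Λ (4 * c.k) &&
  (Nat.ble (2 ^ (c.h1 + 1)) c.L.factorial && (Nat.ble (c.L * c.L * 2 ^ (2 * c.h1 + 2)) (2 ^ (c.Λ + 1)) &&
  (chOK c.a c.ch && (grOK c.k c.a c.a c.gr && (Nat.ble (c.L * 2 ^ (c.h1 + 1)) (2 ^ (8 * c.a)) &&
  mainIneq3 c δ (IVu 4 c.a)))))))))

/-- soundness of a certificate -/
theorem cert_sound3 (H : Hyp) (c : Cert) (δ : ℕ) (hc : check3 c δ = true) (n : ℕ) (hn : 0 < n)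
    (h0 : 2 ^ c.h0 ≤ Nat.totient n) (h1 : Nat.totient n < 2 ^ (c.h1 + 1)) : Good3 n := by
  unfold check3 mainIneq3 at hc
  simp only [Bool.and_eq_true] at hc
  obtain ⟨c1, c2, c3, c4, c5, c6, c7, c8, c8b, c9, c10, c11⟩ := hc
  have g1 := Nat.le_of_ble_eq_true c1
  have g2 := Nat.le_of_ble_eq_true c2
  have g3 := Nat.le_of_ble_eq_true c3
  have g4 := Nat.le_of_ble_eq_true c4
  have g5 := Nat.le_of_ble_eq_true c5
  have g6 := Nat.le_of_ble_eq_true c6
  have g8 := Nat.le_of_ble_eq_true c8b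
  have g9 := Nat.le_of_ble_eq_true c9
  have g10 := Nat.le_of_ble_eq_true c10
  have g11 := Nat.le_of_ble_eq_true c11
  have hL := H.totL c.L (2 ^ (c.h1 + 1)) n hn g5 h1
  have hN : n ^ 2 + Nat.totient n < 2 ^ (c.Λ + 1) := by
    refine lt_of_lt_of_le ?_ g6
    have a1 : Nat.totient n ≤ n := Nat.totient_le n
    have a2 : n + 1 ≤ c.L * 2 ^ (c.h1 + 1) := by
      have : c.L * Nat.totient n + c.L ≤ c.L * 2 ^ (c.h1 + 1) := by
        rw [← Nat.mul_succ]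
        exact Nat.mul_le_mul_left _ h1
      have hLpos : 0 < c.L := by
        rcases Nat.eq_zero_or_pos c.L with h | h
        · rw [h] at hL; omega
        · exact h
      omega
    calc n ^ 2 + Nat.totient n < (n + 1) ^ 2 := by nlinarith
      _ ≤ (c.L * 2 ^ (c.h1 + 1)) ^ 2 := Nat.pow_le_pow_left a2 2
      _ = c.L * c.L * 2 ^ (2 * c.h1 + 2) := by ring
  have hn8 : n ≤ 2 ^ (8 * c.a) := by
    refine le_trans hL (le_trans ?_ g8)
    exact Nat.mul_le_mul_left _ h1.le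
  have hI := IVu_ge H le_rfl g1 g2
  have hcore := core3 H (N := n ^ 2) (Hn := Nat.totient n) (h := c.h0) (I := IVu 4 c.a) (δ := δ) g1 g2 g3 g4
    hI h0 hN c7 c8 g9 g10
  have hS := S3_le g1 hn8
  have hv := vp_pos 4 c.a
  have hD := D_pos
  unfold Good3
  set φ : ℝ := (Nat.totient n : ℝ) with hφ
  have hφ0 : (0 : ℝ) < φ := by
    rw [hφ]
    exact_mod_cast Nat.totient_pos.mpr hn
  have hS' : ((S3 (n ^ 2) (Nat.totient n) c.a).card : ℝ) ≤ ((GS n).ncard : ℝ) := by exact_mod_cast hS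
  set G : ℝ := ((GS n).ncard : ℝ) with hG
  set I : ℝ := ((IVu 4 c.a : ℕ) : ℝ) with hIdef
  have e1 : 192 / 1001 * φ * vp 4 c.a * δ < (D : ℝ) * G := lt_of_lt_of_le hcore (mul_le_mul_of_nonneg_left hS' hD.le)
  -- multiply with `I / D ≥ 1 / vp`
  have e2 : (D : ℝ) ≤ I * vp 4 c.a := by rwa [div_le_iff₀ hv] at hI
  have hG0 : 0 ≤ G := Nat.cast_nonneg _
  have hI0 : 0 ≤ I := Nat.cast_nonneg _
  have e3 : 192 * φ * δ ≤ 1001 * (I * G) := by
    have f1 : (D : ℝ) * (192 * φ * δ) ≤ (I * vp 4 c.a) * (192 * φ * δ) := by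
      apply mul_le_mul_of_nonneg_right e2
      positivity
    have f2 : (I * vp 4 c.a) * (192 * φ * δ) ≤ D * (1001 * (I * G)) := by
      have := mul_le_mul_of_nonneg_left e1.le (mul_nonneg (by norm_num : (0 : ℝ) ≤ 1001) hI0)
      calc _ = 1001 * I * (192 / 1001 * φ * vp 4 c.a * δ) := by ring
        _ ≤ 1001 * I * (D * G) := this
        _ = _ := by ring
    exact le_of_mul_le_mul_left (f1.trans f2) hD
  have e4 : 1001000 * I ≤ 192 * 110 * 693 * c.h0 * (δ : ℝ) := by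
    rw [hIdef]
    exact_mod_cast g11
  have e5 := log_low h0
  set lg : ℝ := Real.log ((n : ℝ) + 1) with hlg
  have hI1 : 0 < I := by
    by_contra hcon
    have : I = 0 := le_antisymm (not_lt.mp hcon) hI0
    rw [this, zero_mul] at e2
    linarith
  have hδ0 : (0 : ℝ) < δ := by
    by_contra hcon
    have : (δ : ℝ) = 0 := le_antisymm (not_lt.mp hcon) (Nat.cast_nonneg _)
    rw [this] at e4
    linarith
  -- conclusion
  have e6 : 1000 * (192 * φ * δ) ≤ 192 * 110 * 693 * c.h0 * (δ : ℝ) * G := by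
    calc 1000 * (192 * φ * δ) ≤ 1000 * (1001 * (I * G)) := mul_le_mul_of_nonneg_left e3 (by norm_num)
      _ = (1001000 * I) * G := by ring
      _ ≤ _ := mul_le_mul_of_nonneg_right e4 hG0
  have e7 : 192 * 110 * 693 * c.h0 * (δ : ℝ) * G ≤ 192 * 110 * (1000 * lg) * δ * G := by
    apply mul_le_mul_of_nonneg_right _ hG0
    apply mul_le_mul_of_nonneg_right _ hδ0.le
    calc (192 : ℝ) * 110 * 693 * c.h0 = 192 * 110 * (693 * c.h0) := by ring
      _ ≤ _ := mul_le_mul_of_nonneg_left e5 (by norm_num)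
  have e8 : (192000 * δ : ℝ) * φ ≤ (192000 * δ) * (110 * lg * G) := by
    calc (192000 * δ : ℝ) * φ = 1000 * (192 * φ * δ) := by ring
      _ ≤ _ := e6.trans e7
      _ = _ := by ring
  exact le_of_mul_le_mul_left e8 (by positivity)

/-- the certificates are valid and cover `2^s ≤ φ(n) < 2^e` -/
def cover3 : ℕ → ℕ → List (Cert × ℕ) → Bool
  | s, e, [] => Nat.beq s e
  | s, e, c :: l => Nat.beq c.1.h0 s && (check3 c.1 c.2 && cover3 (c.1.h1 + 1) e l)

theorem cover_sound3 (H : Hyp) (n : ℕ) (hn : 0 < n) : ∀ (l : List (Cert × ℕ)) (s e : ℕ), cover3 s e l = true →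
    2 ^ s ≤ Nat.totient n → Nat.totient n < 2 ^ e → Good3 n
  | [], s, e, hc, h1, h2 => by
    have : s = e := Nat.eq_of_beq_eq_true hc
    subst this
    exact absurd h2 (not_lt.mpr h1)
  | c :: l, s, e, hc, h1, h2 => by
    unfold cover3 at hc
    simp only [Bool.and_eq_true] at hc
    obtain ⟨g1, g2, g3⟩ := hc
    have hs : c.1.h0 = s := Nat.eq_of_beq_eq_true g1
    by_cases hlt : Nat.totient n < 2 ^ (c.1.h1 + 1)
    · exact cert_sound3 H c.1 c.2 g2 n hn (by rw [hs]; exact h1) hlt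
    · exact cover_sound3 H n hn l (c.1.h1 + 1) e g3 (not_lt.mp hlt) h2

end C

end Pool.Agent.Helper1.SQ
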