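import Pool.Agent.Helper1.SQ.C2b
import Pool.Agent.Helper1.SC.Core

/-!
# Project SC: counting form, the asymptotic certificate
-/

set_option autoImplicit false
open Finset

namespace Pool.Agent.Helper1.SQ.C2

open Pool.Agent.Helper1.SQ Pool.Agent.Helper1.SQ.C

variable {h : ℕ}

/-- `∑_{2^i < m ≤ M} 1/(m(m-1)) ≤ 2^-i - 1/M` -/
theorem tail_sum (i : ℕ) : ∀ M : ℕ, 2 ^ i ≤ M →
    ∑ m ∈ Ioc (2 ^ i) M, (1 : ℝ) / ((m : ℝ) * ((m : ℝ) - 1)) ≤ 1 / 2 ^ i - 1 / (M : ℝ) := by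
  intro M hM
  have hpos : 0 < 2 ^ i := Nat.pos_of_ne_zero (by positivity)
  induction M, hM using Nat.le_induction with
  | base =>
    rw [Finset.Ioc_self, Finset.sum_empty]
    push_cast
    simp
  | succ M hM ih =>
    have hM0 : (0 : ℝ) < M := by exact_mod_cast (by omega : 0 < M)
    have e : Ioc (2 ^ i) (M + 1) = insert (M + 1) (Ioc (2 ^ i) M) := by
      ext x
      rw [Finset.mem_insert, Finset.mem_Ioc, Finset.mem_Ioc]
      omega
    rw [e, Finset.sum_insert (by rw [Finset.mem_Ioc]; omega)]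
    have h1 : (1 : ℝ) / (((M + 1 : ℕ) : ℝ) * (((M + 1 : ℕ) : ℝ) - 1)) = 1 / M - 1 / ((M + 1 : ℕ) : ℝ) := by
      push_cast
      have hM1 : (M : ℝ) + 1 ≠ 0 := by positivity
      rw [div_sub_div _ _ hM0.ne' hM1, div_eq_div_iff (by rw [add_sub_cancel_right]; positivity) (by positivity)]
      ring
    rw [h1]
    linarith

theorem inv_vp_exp2 (i j : ℕ) (hi : 1 ≤ i) (hij : i ≤ j) :
    1 / vp i j ≤ Real.exp (sm i j + 1 / 2 ^ i) := by
  have h1 : 1 / vp i j ≤ Real.exp (∑ p ∈ PB i j, ((1 : ℝ) / p + 1 / (p * ((p : ℝ) - 1)))) := by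
    unfold vp
    rw [Real.exp_sum, one_div, ← Finset.prod_inv_distrib]
    apply Finset.prod_le_prod
    · intro p hp
      rw [mem_PB] at hp
      have h2 : (2 : ℝ) ≤ p := by exact_mod_cast hp.2.two_le
      have : (1 : ℝ) / p ≤ 1 / 2 := one_div_le_one_div_of_le (by norm_num) h2
      exact inv_nonneg.mpr (by linarith)
    · intro p hp
      rw [mem_PB] at hp
      have h2 : (2 : ℝ) ≤ p := by exact_mod_cast hp.2.two_le
      have h3 : (1 - 1 / (p : ℝ))⁻¹ = 1 + ((1 : ℝ) / p + 1 / (p * ((p : ℝ) - 1))) := by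
        have h4 : (p : ℝ) ≠ 0 := by linarith
        have h5 : (p : ℝ) - 1 ≠ 0 := by linarith
        have h6 : 1 - 1 / (p : ℝ) = ((p : ℝ) - 1) / p := by field_simp
        rw [h6, inv_div]
        field_simp
        ring
      rw [h3]
      have h5 := Real.add_one_le_exp ((1 : ℝ) / p + 1 / (p * ((p : ℝ) - 1)))
      linarith
  refine h1.trans (Real.exp_le_exp.mpr ?_)
  rw [Finset.sum_add_distrib]
  unfold sm
  have h2 : ∑ p ∈ PB i j, (1 : ℝ) / ((p : ℝ) * ((p : ℝ) - 1)) ≤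
      ∑ m ∈ Ioc (2 ^ i : ℕ) (2 ^ j : ℕ), (1 : ℝ) / ((m : ℝ) * ((m : ℝ) - 1)) := by
    apply Finset.sum_le_sum_of_subset_of_nonneg
    · unfold PB
      exact Finset.filter_subset _ _
    · intro m hm _
      rw [Finset.mem_Ioc] at hm
      have h3 : 1 < m := lt_of_le_of_lt (Nat.one_le_two_pow) hm.1
      have h4 : (1 : ℝ) < m := by exact_mod_cast h3
      have h5 : (0 : ℝ) < (m : ℝ) - 1 := by linarith
      positivity
  have h3 := tail_sum i (2 ^ j) (Nat.pow_le_pow_right (by norm_num) hij)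
  have h4 : (0 : ℝ) ≤ 1 / ((2 ^ j : ℕ) : ℝ) := by positivity
  linarith

set_option maxRecDepth 100000 in
theorem ivu13 : IVu 4 13 ≤ 3082000000 := by decide +kernel

/-- linear bound -/
theorem vp_lin (H : Hyp) (hL : HrLog) {a : ℕ} (ha : 13 ≤ a) : 1 / vp 4 a ≤ 28 / 100 * (a : ℝ) := by
  have h1 := IVu_ge H (i1 := 4) (i2 := 13) le_rfl (by norm_num) (by norm_num)
  have h1' : IVu 4 13 ≤ 3082000000 := ivu13
  have h1r : (IVu 4 13 : ℝ) ≤ 3082000000 := by exact_mod_cast h1'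
  rw [D_val] at h1
  have hv1 := vp_pos 4 13
  have hv2 := vp_pos 13 a
  have h2 := H.sumS 13 a le_rfl ha
  have h3 := hL 13 a (by norm_num) ha
  have har : (13 : ℝ) ≤ a := by exact_mod_cast ha
  have h4 : sm 13 a + 1 / 2 ^ 13 ≤ 0.12 + Real.log ((2 * (a : ℝ) - 1) / 25) := by
    have e : (2 * (a : ℝ) - 1) / (2 * ((13 : ℕ) : ℝ) - 1) = (2 * (a : ℝ) - 1) / 25 := by norm_num
    rw [e] at h3
    norm_num at h2 h3 ⊢
    linarith
  have hq : (0 : ℝ) < (2 * (a : ℝ) - 1) / 25 := by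
    apply div_pos <;> linarith
  have h5 : 1 / vp 13 a ≤ 1.135 * ((2 * (a : ℝ) - 1) / 25) := by
    refine (inv_vp_exp2 13 a (by norm_num) ha).trans ?_
    refine (Real.exp_le_exp.mpr h4).trans ?_
    rw [Real.exp_add, Real.exp_log hq]
    apply mul_le_mul_of_nonneg_right _ hq.le
    have h6 : Real.exp (0.12 : ℝ) = Real.exp (0.06 : ℝ) ^ 2 := by
      rw [← Real.exp_nat_mul]
      norm_num
    have h7 : Real.exp (0.06 : ℝ) ≤ 1 / (1 - 0.06 : ℝ) := by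
      have := Real.one_sub_le_exp_neg (0.06 : ℝ)
      rw [Real.exp_neg] at this
      rw [le_div_iff₀ (by norm_num)]
      have h7 := Real.exp_pos (0.06 : ℝ)
      calc Real.exp (0.06 : ℝ) * (1 - 0.06) ≤ Real.exp (0.06 : ℝ) * (Real.exp (0.06 : ℝ))⁻¹ :=
            mul_le_mul_of_nonneg_left this h7.le
        _ = 1 := mul_inv_cancel₀ h7.ne'
    rw [h6]
    calc Real.exp (0.06 : ℝ) ^ 2 ≤ (1 / (1 - 0.06 : ℝ)) ^ 2 := pow_le_pow_left₀ (Real.exp_pos _).le h7 2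
      _ ≤ 1.135 := by norm_num
  have h8 : 1 / vp 4 13 ≤ 3.082 := by
    have : (1000000000 : ℝ) / vp 4 13 ≤ 3082000000 := h1.trans h1r
    have e : (1 : ℝ) / vp 4 13 = (1000000000 / vp 4 13) / 1000000000 := by ring
    rw [e, div_le_iff₀ (by norm_num)]
    linarith
  have e : 1 / vp 4 a = (1 / vp 4 13) * (1 / vp 13 a) := by
    rw [vp_mul (by norm_num : 4 ≤ 13) ha, one_div_mul_one_div]
  rw [e]
  have h9 : 0 ≤ 1 / vp 13 a := (div_pos one_pos hv2).le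
  calc (1 / vp 4 13) * (1 / vp 13 a) ≤ 3.082 * (1.135 * ((2 * (a : ℝ) - 1) / 25)) :=
        mul_le_mul h8 h5 h9 (by norm_num)
    _ ≤ 28 / 100 * (a : ℝ) := by
        linarith

theorem final3core (H : Hyp) (hL : HrLog) {K A lam r G δ : ℕ} {c0 : List (ℕ × ℕ)}
    {gs : List (ℕ × ℕ × List (ℕ × ℕ))} (hA31 : 31 ≤ A) (hA : A ≤ 34) (hAK : A ≤ K) (hK : K ≤ 234)
    (hlamr : (D : ℝ) * 9627 ≤ lam * (20 * (K : ℝ) - 1)) (hlam4r : (lam : ℝ) ≤ 4 * D)
    (c7 : chOK2 A c0 = true) (hlev : lev2 A c0 + 2 * A + 5 ≤ 480) (c9 : grOK2 K A A gs = true)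
    (hr : (r : ℝ) = chR2 A c0 + 100000) (hG : (G : ℝ) = grV2 K A A gs + 100000 + 1) (hrDr : (r : ℝ) ≤ D)
    (hrδ : (r : ℝ) + δ ≤ D) (hδ : 3000000 ≤ δ)
    (hiq : (G : ℝ) * D ≤ (4 * (D : ℝ) - lam) * ((D : ℝ) - r - δ))
    (n : ℕ) (hn : 0 < n) (h : ℕ) (h4800 : 4800 ≤ h)
    (hH : 2 ^ h ≤ Nat.totient n) (hH2 : Nat.totient n < 2 ^ (h + 1)) : Good3 n := by
  set φ := Nat.totient n with hφd
  have hTL := H.totL h (2 ^ (h + 1)) n hn (two_pow_le_factorial h (by omega)) hH2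
  rw [← hφd] at hTL
  set Λ := 2 * h + 3 + 2 * Nat.log 2 h with hΛ
  have hN : n ^ 2 + φ < 2 ^ (Λ + 1) := by
    have a1 : φ ≤ n := Nat.totient_le n
    have a2 : n + 1 ≤ h * 2 ^ (h + 1) := by
      have : h * φ + h ≤ h * 2 ^ (h + 1) := by
        rw [← Nat.mul_succ]
        exact Nat.mul_le_mul_left _ hH2
      omega
    have a3 : h < 2 ^ (Nat.log 2 h + 1) := Nat.lt_pow_succ_log_self (by norm_num) h
    calc n ^ 2 + φ < (n + 1) ^ 2 := by nlinarith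
      _ ≤ (h * 2 ^ (h + 1)) ^ 2 := Nat.pow_le_pow_left a2 2
      _ ≤ (2 ^ (Nat.log 2 h + 1) * 2 ^ (h + 1)) ^ 2 := by
          apply Nat.pow_le_pow_left
          exact Nat.mul_le_mul_right _ a3.le
      _ = 2 ^ (Λ + 1) := by
          rw [← pow_add, ← pow_mul, hΛ]; congr 1; ring
  have hlog := log_small h4800
  have hA20 : 20 ≤ A := by omega
  have hΛ1 : 200 * Λ ≤ 401 * h + 600 := by rw [hΛ]; omega
  have hΛ3 : Λ + 1 ≤ 3 * h := by omega
  set a := pt h A with ha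
  set k := pt h K with hk
  have hak : a ≤ k := pt_mono hAK
  have hpA := pt_ge h4800 A
  have hv := vp_pos 4 a
  have hHr : (2 : ℝ) ^ h ≤ φ := by exact_mod_cast hH
  have h2h : (0 : ℝ) < 2 ^ h := by positivity
  have hφr : (0 : ℝ) < (φ : ℝ) := lt_of_lt_of_le h2h hHr
  set V : ℝ := 192 / 1001 * (φ : ℝ) * vp 4 a with hV
  have hV0 : 0 < V := by positivity
  have hD := D_pos
  -- lambda
  have hk1 : (K : ℝ) * ((h : ℝ) / 240) - 1 < k := pt_gt h K
  have hK20 : (20 : ℝ) ≤ K := by exact_mod_cast (by omega : 20 ≤ K)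
  have hΛk : (D : ℝ) * Λ ≤ lam * k := by
    have b1 : (Λ : ℝ) ≤ 2.005 * h + 3 := by
      have : (200 : ℝ) * Λ ≤ 401 * h + 600 := by exact_mod_cast hΛ1
      linarith
    have hlam0 : (0 : ℝ) ≤ lam := Nat.cast_nonneg _
    set t : ℝ := (h : ℝ) / 240 with ht
    have ht20 : (20 : ℝ) ≤ t := by
      have : (4800 : ℝ) ≤ h := by exact_mod_cast h4800
      rw [ht]; linarith
    have b2 : (h : ℝ) = 240 * t := by rw [ht]; ring
    have b3 : (D : ℝ) * Λ ≤ D * (481.2 * t + 3) := by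
      apply mul_le_mul_of_nonneg_left _ hD.le
      rw [b2] at b1; linarith
    -- slope
    have b4 : (D : ℝ) * 481.2 ≤ lam * K := by
      have : (lam : ℝ) * (20 * (K : ℝ) - 1) ≤ 20 * (lam * K) := by nlinarith
      rw [D_val] at hlamr ⊢
      linarith
    have b5 : (D : ℝ) * (481.2 * t + 3) ≤ lam * (K * t - 1) := by
      have c1 : (D : ℝ) * 481.2 * (t - 20) ≤ lam * K * (t - 20) :=
        mul_le_mul_of_nonneg_right b4 (by linarith)
      nlinarith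
    have b6 : (lam : ℝ) * (K * t - 1) ≤ lam * k := mul_le_mul_of_nonneg_left hk1.le hlam0
    linarith
  have hk0 : (0 : ℝ) < k := by
    have : 0 < k := by omega
    exact_mod_cast this
  have h4k : (0 : ℝ) ≤ 4 * (k : ℝ) - Λ := by
    have : (D : ℝ) * Λ ≤ D * (4 * k) := by
      calc (D : ℝ) * Λ ≤ lam * k := hΛk
        _ ≤ 4 * D * k := mul_le_mul_of_nonneg_right hlam4r hk0.le
        _ = D * (4 * k) := by ring
    have := le_of_mul_le_mul_left this hD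
    linarith
  -- the lower bound
  obtain ⟨P, R, E, M, hch, hP, hR, hE, hM⟩ := chain2_sound H hL h4800 c0 A (by omega) (by omega) c7
  obtain ⟨p0, r0, e0, m0⟩ := Ch_nonneg hch
  rw [← ha] at hch hM
  have hR1 : R ≤ 1 := by
    have a1 : (D : ℝ) * R ≤ (D : ℝ) * 1 := by
      linarith
    exact le_of_mul_le_mul_left a1 hD
  have hlow := H.bhLow a P R E M hch hR1 (n ^ 2) φ
  have hEM : E * M * 2 ^ (h / 120) ≤ 2 ^ h := by
    apply pow480 (by positivity)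
    calc (E * M * 2 ^ (h / 120)) ^ 480 = E ^ 480 * M ^ 480 * 2 ^ (h / 120 * 480) := by
          rw [mul_pow, mul_pow, ← pow_mul]
      _ ≤ 2 ^ (lev2 A c0 * h) * (2 ^ (a + 1)) ^ 480 * 2 ^ (h / 120 * 480) := by
          apply mul_le_mul_of_nonneg_right _ (by positivity)
          apply mul_le_mul hE _ (by positivity) (by positivity)
          exact pow_le_pow_left₀ (by linarith) hM _
      _ = 2 ^ (lev2 A c0 * h + (a + 1) * 480 + h / 120 * 480) := by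
          rw [← pow_mul, ← pow_add, ← pow_add]
      _ ≤ 2 ^ (480 * h) := by
          apply pow_le_pow_right₀ (by norm_num)
          have h6 := pt_240 h A
          rw [← ha] at h6
          have h7 := s480 h
          have h8 : (lev2 A c0 + 2 * A + 5) * h ≤ 480 * h := Nat.mul_le_mul_right h hlev
          nlinarith
  have herr := errE H hL h4800 (A := A) (by omega) hA hH (X := 8 * (E * M)) (by linarith)
  rw [← ha, ← hV] at herr
  have hcnt : V * ((D : ℝ) - r) ≤ (D : ℝ) * ((cnt (n ^ 2) φ 1 a).card : ℝ) := by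
    have b2 := mul_le_mul_of_nonneg_left hlow hD.le
    refine le_trans ?_ b2
    have b3 : (D : ℝ) * R * V ≤ chR2 A c0 * V := mul_le_mul_of_nonneg_right hR hV0.le
    rw [hr]
    have b4 : (D : ℝ) * (192 / 1001 * (φ : ℝ) * vp 4 a * (1 - R) - 8 * (E * M)) =
        V * D - D * R * V - D * (8 * (E * M)) := by rw [hV]; ring
    rw [b4]
    linarith
  have hup1 := groups2 H hL h4800 (N := n ^ 2) (K := K) hA hH gs A le_rfl hAK c9
  have hup2 := hp2 H hL h4800 (N := n ^ 2) (K := K) hA20 hA hK hAK hH hN hΛ3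
  rw [← ha, ← hk, ← hV] at hup1 hup2
  have hsplit : ∑ i ∈ Ico a k, ((k : ℝ) - i) *
      ∑ p ∈ PB i (i + 1), (((cnt (n ^ 2) φ p a).card : ℝ) + hpw (n ^ 2) φ a p) =
      ∑ i ∈ Ico a k, ((k : ℝ) - i) * ∑ p ∈ PB i (i + 1), ((cnt (n ^ 2) φ p a).card : ℝ) +
      ∑ i ∈ Ico a k, ((k : ℝ) - i) * ∑ p ∈ PB i (i + 1), (hpw (n ^ 2) φ a p : ℝ) := by
    rw [← Finset.sum_add_distrib]
    apply Finset.sum_congr rfl
    intro i _
    rw [Finset.sum_add_distrib]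
    ring
  rw [hG] at hiq
  have hg0 : (0 : ℝ) ≤ ((grV2 K A A gs : ℕ) : ℝ) := Nat.cast_nonneg _
  have hcnt3 : V * ((D : ℝ) - r - δ) ≤ (D : ℝ) * (((cnt (n ^ 2) φ 1 a).card : ℝ) - V * δ / D) := by
    have e5 : (D : ℝ) * (((cnt (n ^ 2) φ 1 a).card : ℝ) - V * δ / D) =
        D * ((cnt (n ^ 2) φ 1 a).card : ℝ) - V * δ := by
      field_simp
    rw [e5]
    linarith
  have hfin : (D : ℝ) * (D * (∑ i ∈ Ico a k, ((k : ℝ) - i) * ∑ p ∈ PB i (i + 1), ((cnt (n ^ 2) φ p a).card : ℝ) +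
      ∑ i ∈ Ico a k, ((k : ℝ) - i) * ∑ p ∈ PB i (i + 1), (hpw (n ^ 2) φ a p : ℝ))) <
      (D : ℝ) * (D * ((4 * (k : ℝ) - Λ) * (((cnt (n ^ 2) φ 1 a).card : ℝ) - V * δ / D))) := by
    calc _ ≤ (D : ℝ) * (V * ((k : ℝ) * ((grV2 K A A gs : ℕ) : ℝ)) + V * ((k : ℝ) * 100000)) := by
          apply mul_le_mul_of_nonneg_left _ hD.le
          rw [mul_add]
          exact add_le_add hup1 hup2
      _ = V * k * (((grV2 K A A gs : ℕ) : ℝ) * D + 100000 * D) := by ring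
      _ < V * k * ((4 * (D : ℝ) - lam) * ((D : ℝ) - r - δ)) := by
          apply mul_lt_mul_of_pos_left _ (by positivity)
          linarith
      _ = (4 * (D : ℝ) * k - lam * k) * (V * ((D : ℝ) - r - δ)) := by ring
      _ ≤ (4 * (D : ℝ) * k - D * Λ) * (V * ((D : ℝ) - r - δ)) := by
          apply mul_le_mul_of_nonneg_right (by linarith)
          exact mul_nonneg hV0.le (by linarith)
      _ = D * ((4 * (k : ℝ) - Λ) * (V * ((D : ℝ) - r - δ))) := by ring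
      _ ≤ D * ((4 * (k : ℝ) - Λ) * (D * (((cnt (n ^ 2) φ 1 a).card : ℝ) - V * δ / D))) := by
          apply mul_le_mul_of_nonneg_left _ hD.le
          exact mul_le_mul_of_nonneg_left hcnt3 h4k
      _ = _ := by ring
  have hlt := lt_of_mul_lt_mul_left (lt_of_mul_lt_mul_left hfin hD.le) hD.le
  rw [← hsplit] at hlt
  have hn8 : n ≤ 2 ^ (8 * a) := by
    have a3 : h < 2 ^ (Nat.log 2 h + 1) := Nat.lt_pow_succ_log_self (by norm_num) h
    have e1 : Nat.log 2 h + 1 + (h + 1) ≤ 8 * a := by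
      have e2 : 31 * h < 240 * (a + 1) := by
        have e3 : 31 * h ≤ A * h := Nat.mul_le_mul_right h hA31
        have e4 : A * h < 240 * (A * h / 240) + 240 := by omega
        have e5 : a = A * h / 240 := rfl
        omega
      omega
    calc n ≤ h * φ := hTL
      _ ≤ 2 ^ (Nat.log 2 h + 1) * 2 ^ (h + 1) := Nat.mul_le_mul a3.le hH2.le
      _ = 2 ^ (Nat.log 2 h + 1 + (h + 1)) := (pow_add _ _ _).symm
      _ ≤ 2 ^ (8 * a) := Nat.pow_le_pow_right (by norm_num) e1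
  have hres := mt3 wt (n ^ 2) φ k Λ a (V * δ / D) (by omega) hN h4k hlt
  have hS := S3_le (n := n) (a := a) (by omega) hn8
  rw [← hφd] at hS
  have hS' : ((S3 (n ^ 2) φ a).card : ℝ) ≤ ((GS n).ncard : ℝ) := by exact_mod_cast hS
  have hG1 : V * δ / D < ((GS n).ncard : ℝ) := lt_of_lt_of_le hres hS'
  rw [div_lt_iff₀ hD] at hG1
  have hvl := vp_lin H hL (a := a) (by omega)
  have hlog1 := log_low hH
  unfold Good3
  rw [← hφd]
  set g : ℝ := ((GS n).ncard : ℝ) with hg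
  set lgn : ℝ := Real.log ((n : ℝ) + 1) with hlgn
  have hg0' : 0 ≤ g := Nat.cast_nonneg _
  -- `a ≤ 34 h / 240`
  have ha240 : (240 : ℝ) * a ≤ 34 * h := by
    have h6 := pt_240 h A
    rw [← ha] at h6
    have h7 : A * h ≤ 34 * h := Nat.mul_le_mul_right h hA
    exact_mod_cast h6.trans h7
  have har0 : (0 : ℝ) < a := by exact_mod_cast (by omega : 0 < a)
  have hδr : (3000000 : ℝ) ≤ δ := by exact_mod_cast hδ
  -- `1 ≤ 0.28 a vp`
  have hv1 : 1 ≤ 28 / 100 * (a : ℝ) * vp 4 a := by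
    rw [div_le_iff₀ hv] at hvl
    linarith
  have q1 : 192 / 1001 * (φ : ℝ) * δ ≤ 28 / 100 * (a : ℝ) * (g * D) := by
    have q2 : 192 / 1001 * (φ : ℝ) * δ * 1 ≤ 192 / 1001 * (φ : ℝ) * δ * (28 / 100 * (a : ℝ) * vp 4 a) :=
      mul_le_mul_of_nonneg_left hv1 (by positivity)
    have q3 : 28 / 100 * (a : ℝ) * (V * δ) ≤ 28 / 100 * (a : ℝ) * (g * D) :=
      mul_le_mul_of_nonneg_left hG1.le (by positivity)
    calc 192 / 1001 * (φ : ℝ) * δ = 192 / 1001 * (φ : ℝ) * δ * 1 := by ring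
      _ ≤ _ := q2
      _ = 28 / 100 * (a : ℝ) * (V * δ) := by rw [hV]; ring
      _ ≤ _ := q3
  have q4 : 192 / 1001 * (φ : ℝ) * 3000000 ≤ 192 / 1001 * (φ : ℝ) * δ :=
    mul_le_mul_of_nonneg_left hδr (by positivity)
  rw [D_val] at q1
  have q5 : (a : ℝ) * g ≤ 34 / 240 * h * g := by
    apply mul_le_mul_of_nonneg_right _ hg0'
    linarith
  have q6 : (693 : ℝ) * h * g ≤ 1000 * lgn * g := mul_le_mul_of_nonneg_right hlog1 hg0'
  linarith

/-- the asymptotic certificate with slack -/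
def chk3 (K A lam δ : ℕ) (c0 : List (ℕ × ℕ)) (gs : List (ℕ × ℕ × List (ℕ × ℕ))) : Bool :=
  Nat.ble 31 A && (Nat.ble A 34 && (Nat.ble A K && (Nat.ble K 234 && (Nat.ble (D * 9627) (lam * (20 * K - 1)) &&
  (Nat.ble lam (4 * D) && (chOK2 A c0 && (Nat.ble (lev2 A c0 + 2 * A + 5) 480 && (grOK2 K A A gs &&
  (Nat.ble 3000000 δ && (Nat.ble (chR2 A c0 + 100000 + δ) D &&
   Nat.ble ((grV2 K A A gs + 100000 + 1) * D) ((4 * D - lam) * (D - (chR2 A c0 + 100000 + δ)))))))))))))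

theorem final3' (H : Hyp) (hL : HrLog) {K A lam δ : ℕ} {c0 : List (ℕ × ℕ)} {gs : List (ℕ × ℕ × List (ℕ × ℕ))}
    (hchk : chk3 K A lam δ c0 gs = true) (n : ℕ) (hn : 0 < n) (h : ℕ) (h4800 : 4800 ≤ h)
    (hH : 2 ^ h ≤ Nat.totient n) (hH2 : Nat.totient n < 2 ^ (h + 1)) : Good3 n := by
  unfold chk3 at hchk
  simp only [Bool.and_eq_true] at hchk
  obtain ⟨c1, c2, c3, c4, c5, c6, c7, c8, c9, cδ, c10, c11⟩ := hchk
  have hA31 := Nat.le_of_ble_eq_true c1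
  have hA := Nat.le_of_ble_eq_true c2
  have hAK := Nat.le_of_ble_eq_true c3
  have hK := Nat.le_of_ble_eq_true c4
  have hlev := Nat.le_of_ble_eq_true c8
  have e20 : ((20 * K - 1 : ℕ) : ℝ) = 20 * (K : ℝ) - 1 := by
    rw [Nat.cast_sub (by omega)]; push_cast; ring
  have hlam := Nat.le_of_ble_eq_true c5
  have hlam4 := Nat.le_of_ble_eq_true c6
  have hδ := Nat.le_of_ble_eq_true cδ
  have hrD := Nat.le_of_ble_eq_true c10
  have hineq := Nat.le_of_ble_eq_true c11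
  have hlamr : (D : ℝ) * 9627 ≤ lam * (20 * (K : ℝ) - 1) := by
    rw [← e20]
    exact_mod_cast hlam
  have hlam4r : (lam : ℝ) ≤ 4 * D := by exact_mod_cast hlam4
  have hrDr : ((chR2 A c0 + 100000 : ℕ) : ℝ) + δ ≤ D := by exact_mod_cast hrD
  have hrD1 : ((chR2 A c0 + 100000 : ℕ) : ℝ) ≤ D := by
    have : (0 : ℝ) ≤ δ := Nat.cast_nonneg _
    linarith
  have eD : ((D - (chR2 A c0 + 100000 + δ) : ℕ) : ℝ) = (D : ℝ) - ((chR2 A c0 + 100000 : ℕ) : ℝ) - δ := by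
    rw [Nat.cast_sub hrD, Nat.cast_add]
    ring
  have eL : ((4 * D - lam : ℕ) : ℝ) = 4 * (D : ℝ) - lam := by rw [Nat.cast_sub hlam4, Nat.cast_mul]; norm_num
  have hiq : ((grV2 K A A gs + 100000 + 1 : ℕ) : ℝ) * D ≤
      (4 * (D : ℝ) - lam) * ((D : ℝ) - ((chR2 A c0 + 100000 : ℕ) : ℝ) - δ) := by
    rw [← eD, ← eL, ← Nat.cast_mul, ← Nat.cast_mul]
    exact Nat.cast_le.mpr hineq
  exact final3core H hL hA31 hA hAK hK hlamr hlam4r c7 hlev c9 (r := chR2 A c0 + 100000)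
    (G := grV2 K A A gs + 100000 + 1) (by push_cast; ring) (by push_cast; ring) hrD1 hrDr hδ hiq n hn h h4800 hH hH2

theorem final3 (H : Hyp) (hL : HrLog) {K A lam δ : ℕ} {c0 : List (ℕ × ℕ)} {gs : List (ℕ × ℕ × List (ℕ × ℕ))}
    (hchk : chk3 K A lam δ c0 gs = true) (n : ℕ) (hn : 0 < n) (h0 : ℕ) (h4800 : 4800 ≤ h0)
    (hφ : 2 ^ h0 ≤ Nat.totient n) : Good3 n := by
  have hφ0 : Nat.totient n ≠ 0 := (Nat.totient_pos.mpr hn).ne'
  exact final3' H hL hchk n hn (Nat.log 2 (Nat.totient n))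
    (h4800.trans (Nat.le_log_of_pow_le (by norm_num) hφ)) (Nat.pow_log_le_self 2 hφ0)
    (Nat.lt_pow_succ_log_self (by norm_num) _)

def gs3 : List (ℕ × ℕ × List (ℕ × ℕ)) :=
  [(43, 31, [(19, 2), (7, 4), (3, 4), (1, 6)]), (55, 31, [(17, 2), (6, 4), (3, 4), (1, 6)]), (67, 31, [(17, 2), (10, 2), (4, 4), (2, 4), (1, 4)]), (79, 31, [(16, 2), (9, 2), (3, 4), (1, 6)]), (91, 31, [(15, 2), (8, 2), (5, 2), (2, 4), (1, 4)]), (103, 27, [(13, 2), (8, 2), (5, 2), (2, 4), (1, 4)]), (115, 25, [(12, 2), (7, 2), (4, 2), (2, 4), (1, 4)]), (127, 23, [(11, 2), (6, 2), (2, 4), (1, 4)]), (139, 20, [(10, 2), (5, 2), (2, 4), (1, 4)]), (151, 16, [(8, 2), (5, 2), (2, 4), (1, 4)]), (163, 14, [(7, 2), (4, 2), (3, 2), (2, 2), (1, 4)]), (175, 13, [(6, 2), (3, 2), (2, 2), (1, 4)]), (187, 9, [(5, 2), (3, 2), (1, 4)]), (202, 6, [(3, 2), (1, 4)])]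

set_option maxRecDepth 100000 in
theorem cert3 : chk3 202 31 2383510771 31000000 [(19, 2), (8, 4), (6, 2), (3, 4), (1, 6)] gs3 = true := by decide +kernel

end Pool.Agent.Helper1.SQ.C2
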