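import Pool.Agent.Helper1.SC.Core

/-!
# Project SC: certificates with slack for `2^2001 ≤ φ(n) < 2^2556`
-/

set_option autoImplicit false

namespace Pool.Agent.Helper1.SQ.C

def certsC3 : List (Cert × ℕ) :=
  [(⟨2001, 2126, 311, 4270, 1760, 267, [(166, 2), (73, 4), (36, 4), (18, 4), (7, 6), (4, 4)],
    [(462, 267, [(148, 2), (59, 4), (26, 4), (9, 6), (8, 2), (4, 4)]), (657, 267, [(148, 2), (82, 2), (32, 4), (14, 4), (8, 4), (4, 4)]), (852, 250, [(125, 2), (69, 2), (43, 2), (19, 4), (9, 4), (4, 4)]), (1047, 206, [(103, 2), (57, 2), (22, 4), (10, 4), (4, 4)]), (1242, 171, [(85, 2), (47, 2), (29, 2), (12, 4), (5, 4), (4, 2)]), (1437, 125, [(62, 2), (34, 2), (13, 4), (6, 4), (5, 2), (4, 2)]), (1593, 93, [(46, 2), (25, 2), (10, 4), (4, 4)]), (1760, 58, [(29, 2), (18, 2), (12, 2), (8, 2), (5, 2), (4, 2)])]⟩, 19622000),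
   (⟨2127, 2260, 327, 4538, 1871, 284, [(177, 2), (78, 4), (34, 4), (12, 6), (5, 6), (4, 4)],
    [(530, 284, [(157, 2), (62, 4), (27, 4), (13, 4), (7, 4), (4, 4)]), (776, 284, [(142, 2), (78, 2), (31, 4), (15, 4), (8, 4), (4, 4)]), (940, 251, [(125, 2), (69, 2), (27, 4), (13, 4), (7, 4), (4, 4)]), (1145, 210, [(105, 2), (58, 2), (23, 4), (11, 4), (5, 4), (4, 2)]), (1350, 175, [(87, 2), (48, 2), (30, 2), (12, 4), (5, 4), (4, 2)]), (1514, 140, [(70, 2), (38, 2), (23, 2), (10, 4), (4, 4)]), (1678, 96, [(48, 2), (30, 2), (12, 4), (5, 4), (4, 2)]), (1871, 57, [(31, 2), (19, 2), (13, 2), (5, 4), (4, 2)])]⟩, 20000000),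
   (⟨2261, 2403, 344, 4824, 1989, 302, [(188, 2), (75, 4), (37, 4), (14, 6), (10, 4), (4, 6)],
    [(566, 302, [(167, 2), (60, 4), (26, 4), (10, 6), (6, 4), (4, 4)]), (786, 302, [(151, 2), (94, 2), (58, 2), (25, 4), (13, 4), (7, 4), (4, 4)]), (1006, 274, [(137, 2), (76, 2), (47, 2), (20, 4), (9, 4), (4, 4)]), (1226, 222, [(111, 2), (61, 2), (24, 4), (11, 4), (5, 4), (4, 2)]), (1446, 177, [(88, 2), (48, 2), (19, 4), (9, 4), (4, 4)]), (1622, 145, [(72, 2), (40, 2), (25, 2), (10, 4), (4, 4)]), (1798, 103, [(51, 2), (28, 2), (12, 4), (5, 4), (4, 2)]), (1989, 61, [(33, 2), (20, 2), (13, 2), (5, 4), (4, 2)])]⟩, 19331000),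
   (⟨2404, 2555, 362, 5128, 2115, 321, [(200, 2), (80, 4), (40, 4), (14, 6), (10, 4), (4, 6)],
    [(603, 321, [(178, 2), (64, 4), (28, 4), (9, 6), (5, 4), (4, 4)]), (838, 321, [(160, 2), (100, 2), (62, 2), (27, 4), (13, 4), (7, 4), (4, 4)]), (1073, 289, [(144, 2), (80, 2), (50, 2), (20, 4), (11, 4), (5, 4), (4, 2)]), (1308, 238, [(119, 2), (66, 2), (41, 2), (18, 4), (9, 4), (4, 4)]), (1543, 187, [(93, 2), (51, 2), (20, 4), (9, 4), (4, 4)]), (1731, 152, [(76, 2), (42, 2), (26, 2), (11, 4), (4, 4)]), (1919, 108, [(54, 2), (30, 2), (12, 4), (5, 4), (4, 2)]), (2115, 68, [(34, 2), (21, 2), (13, 2), (5, 4), (4, 2)])]⟩, 20382000)]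

set_option maxRecDepth 100000 in
theorem coverC3 : cover3 2001 2556 certsC3 = true := by decide +kernel

theorem goodC3 (H : Hyp) (n : ℕ) (hn : 0 < n) (h1 : 2 ^ 2001 ≤ Nat.totient n)
    (h2 : Nat.totient n < 2 ^ 2556) : Good3 n :=
  cover_sound3 H n hn certsC3 2001 2556 coverC3 h1 h2

end Pool.Agent.Helper1.SQ.C
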