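import Pool.Agent.Helper1.SC.Core

/-!
# Project SC: certificates with slack for `2^3691 ≤ φ(n) < 2^4172`
-/

set_option autoImplicit false

namespace Pool.Agent.Helper1.SQ.C

def certsC6 : List (Cert × ℕ) :=
  [(⟨3691, 3923, 518, 7866, 3248, 492, [(307, 2), (122, 4), (61, 4), (33, 4), (13, 6), (5, 6), (4, 4)],
    [(852, 492, [(273, 2), (109, 4), (48, 4), (24, 4), (13, 4), (7, 4), (4, 4)]), (1212, 492, [(246, 2), (153, 2), (61, 4), (27, 4), (13, 4), (6, 4), (4, 4)]), (1500, 471, [(235, 2), (130, 2), (81, 2), (32, 4), (16, 4), (8, 4), (4, 4)]), (1860, 397, [(198, 2), (110, 2), (68, 2), (27, 4), (13, 4), (6, 4), (5, 2), (4, 2)]), (2220, 321, [(160, 2), (88, 2), (55, 2), (22, 4), (11, 4), (5, 4), (4, 2)]), (2580, 243, [(121, 2), (67, 2), (41, 2), (18, 4), (9, 4), (4, 4)]), (2940, 162, [(81, 2), (45, 2), (18, 4), (8, 4), (4, 4)]), (3248, 96, [(48, 2), (30, 2), (12, 4), (5, 4), (4, 2)])]⟩, 23919000),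
   (⟨3924, 4171, 545, 8362, 3453, 523, [(326, 2), (130, 4), (65, 4), (21, 6), (8, 6), (5, 4), (4, 4)],
    [(1055, 523, [(290, 2), (181, 2), (72, 4), (32, 4), (12, 6), (4, 6)]), (1435, 523, [(261, 2), (145, 2), (52, 4), (23, 4), (13, 4), (7, 4), (4, 4)]), (1739, 469, [(234, 2), (130, 2), (81, 2), (32, 4), (16, 4), (8, 4), (4, 4)]), (2119, 393, [(196, 2), (108, 2), (67, 2), (26, 4), (13, 4), (6, 4), (5, 2), (4, 2)]), (2499, 307, [(153, 2), (85, 2), (53, 2), (23, 4), (12, 4), (5, 4), (4, 2)]), (2803, 242, [(121, 2), (67, 2), (24, 4), (11, 4), (5, 4), (4, 2)]), (3107, 182, [(91, 2), (50, 2), (31, 2), (13, 4), (6, 4), (5, 2), (4, 2)]), (3453, 103, [(51, 2), (31, 2), (13, 4), (5, 4), (4, 2)])]⟩, 24091000)]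

set_option maxRecDepth 100000 in
theorem coverC6 : cover3 3691 4172 certsC6 = true := by decide +kernel

theorem goodC6 (H : Hyp) (n : ℕ) (hn : 0 < n) (h1 : 2 ^ 3691 ≤ Nat.totient n)
    (h2 : Nat.totient n < 2 ^ 4172) : Good3 n :=
  cover_sound3 H n hn certsC6 3691 4172 coverC6 h1 h2

end Pool.Agent.Helper1.SQ.C
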