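import Pool.Agent.Helper1.SC.Core

/-!
# Project SC: certificates with slack for `2^4172 ≤ φ(n) < 2^4715`
-/

set_option autoImplicit false

namespace Pool.Agent.Helper1.SQ.C

def certsC7 : List (Cert × ℕ) :=
  [(⟨4172, 4434, 574, 8888, 3671, 556, [(347, 2), (138, 4), (69, 4), (23, 6), (9, 6), (5, 4), (4, 4)],
    [(1042, 556, [(308, 2), (112, 4), (49, 4), (24, 4), (13, 4), (7, 4), (4, 4)]), (1447, 556, [(278, 2), (154, 2), (61, 4), (30, 4), (10, 6), (5, 4), (4, 4)]), (1771, 513, [(256, 2), (142, 2), (88, 2), (35, 4), (17, 4), (10, 4), (5, 4), (4, 4)]), (2176, 431, [(215, 2), (119, 2), (74, 2), (29, 4), (14, 4), (7, 4), (4, 4)]), (2581, 341, [(170, 2), (94, 2), (58, 2), (25, 4), (13, 4), (7, 4), (4, 4)]), (2986, 259, [(129, 2), (71, 2), (44, 2), (19, 4), (9, 4), (4, 4)]), (3310, 187, [(93, 2), (51, 2), (20, 4), (9, 4), (4, 4)]), (3671, 113, [(56, 2), (31, 2), (13, 4), (5, 4), (4, 2)])]⟩, 24835000),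
   (⟨4435, 4714, 605, 9448, 3902, 591, [(369, 2), (147, 4), (73, 4), (24, 6), (10, 6), (4, 6)],
    [(935, 591, [(328, 2), (131, 4), (65, 4), (32, 4), (12, 6), (4, 6)]), (1365, 591, [(328, 2), (182, 2), (72, 4), (32, 4), (17, 4), (6, 6), (4, 4)]), (1795, 561, [(280, 2), (155, 2), (96, 2), (38, 4), (19, 4), (7, 6), (4, 4)]), (2225, 472, [(236, 2), (131, 2), (81, 2), (32, 4), (16, 4), (9, 4), (5, 4), (4, 4)]), (2655, 386, [(193, 2), (107, 2), (66, 2), (26, 4), (13, 4), (6, 4), (5, 2), (4, 2)]), (3085, 292, [(146, 2), (81, 2), (50, 2), (22, 4), (11, 4), (5, 4), (4, 2)]), (3515, 197, [(98, 2), (54, 2), (21, 4), (10, 4), (5, 4), (4, 2)]), (3902, 121, [(60, 2), (33, 2), (13, 4), (5, 4), (4, 2)])]⟩, 25588000)]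

set_option maxRecDepth 100000 in
theorem coverC7 : cover3 4172 4715 certsC7 = true := by decide +kernel

theorem goodC7 (H : Hyp) (n : ℕ) (hn : 0 < n) (h1 : 2 ^ 4172 ≤ Nat.totient n)
    (h2 : Nat.totient n < 2 ^ 4715) : Good3 n :=
  cover_sound3 H n hn certsC7 4172 4715 coverC7 h1 h2

end Pool.Agent.Helper1.SQ.C
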