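import Pool.Agent.Helper1.SC.Core
import Pool.Agent.Helper68.SQ.L

/-!
# Project SC: the range `φ(n) < 4096`, counting form (after helper15's `SQ/K.lean`)
-/

set_option autoImplicit false
open Finset

namespace Pool.Agent.Helper1.SQ.C

/-- at least `t` of `b + 2, b + 4, …, b + 2k` are coprime to `P` (for `t ≥ 1`) -/
noncomputable def atl (P b k : ℕ) : ℕ → Bool :=
  Nat.rec (motive := fun _ => ℕ → Bool) (fun _ => false)
    (fun k ih t => Bool.rec (motive := fun _ => Bool) (ih t)
      (Bool.rec (motive := fun _ => Bool) (ih (Nat.sub t (nat_lit 1))) true (Nat.beq t (nat_lit 1)))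
      (Nat.beq (Nat.gcd (Nat.add b (Nat.mul (nat_lit 2) (Nat.succ k))) P) (nat_lit 1))) k

theorem atl_succ (P b k t : ℕ) : atl P b (k + 1) t = Bool.rec (motive := fun _ => Bool) (atl P b k t)
    (Bool.rec (motive := fun _ => Bool) (atl P b k (t - 1)) true (Nat.beq t 1))
      (Nat.beq (Nat.gcd (b + 2 * (k + 1)) P) 1) := rfl

theorem atl_spec (P b k : ℕ) : ∀ t, atl P b k t = true →
    t ≤ ((Ioc (b + 1) (b + 2 * k)).filter (fun x => Nat.gcd x P = 1)).card := by
  induction k with
  | zero =>
    intro t h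
    exact absurd h Bool.false_ne_true
  | succ k ih =>
    intro t h
    rw [atl_succ] at h
    have hsub : Ioc (b + 1) (b + 2 * k) ⊆ Ioc (b + 1) (b + 2 * (k + 1)) := by
      intro x hx
      rw [Finset.mem_Ioc] at hx ⊢
      omega
    rcases hg : Nat.beq (Nat.gcd (b + 2 * (k + 1)) P) 1 with _ | _
    · rw [hg] at h
      exact (ih t h).trans (Finset.card_le_card (Finset.filter_subset_filter _ hsub))
    · rw [hg] at h
      have h2 : Nat.gcd (b + 2 * (k + 1)) P = 1 := Nat.eq_of_beq_eq_true hg
      have hins : insert (b + 2 * (k + 1)) ((Ioc (b + 1) (b + 2 * k)).filter (fun x => Nat.gcd x P = 1)) ⊆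
          (Ioc (b + 1) (b + 2 * (k + 1))).filter (fun x => Nat.gcd x P = 1) := by
        intro x hx
        rw [Finset.mem_insert] at hx
        rcases hx with rfl | hx
        · rw [Finset.mem_filter, Finset.mem_Ioc]
          exact ⟨by omega, h2⟩
        · exact Finset.filter_subset_filter _ hsub hx
      have hcard := Finset.card_le_card hins
      rw [Finset.card_insert_of_notMem (by
        rw [Finset.mem_filter, Finset.mem_Ioc]
        omega)] at hcard
      rcases hb : Nat.beq t 1 with _ | _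
      · rw [hb] at h
        have h1 := ih _ h
        omega
      · have h1 : t = 1 := Nat.eq_of_beq_eq_true hb
        rw [h1]
        omega

/-- number of `x < k` coprime to `n` -/
def tcC (n : ℕ) : ℕ → ℕ
  | 0 => 0
  | k + 1 => tcC n k + (bif Nat.beq (Nat.gcd n k) 1 then 1 else 0)

theorem tcC_eq (n k : ℕ) : tcC n k = ((range k).filter n.Coprime).card := by
  induction k with
  | zero => simp [tcC]
  | succ k ih =>
    rw [tcC, ih, Finset.range_add_one, Finset.filter_insert]
    by_cases h : n.Coprime k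
    · rw [if_pos h, Finset.card_insert_of_notMem (by simp)]
      have : Nat.beq (Nat.gcd n k) 1 = true := by rw [h]; rfl
      rw [this, cond_true]
    · rw [if_neg h]
      have : Nat.beq (Nat.gcd n k) 1 = false := by
        rw [Bool.eq_false_iff, ne_eq, Nat.beq_eq]; exact h
      rw [this, cond_false, add_zero]

theorem tcC_self (n : ℕ) : tcC n n = Nat.totient n := by rw [tcC_eq]; rfl

/-- `f` holds on `[a, a + 2^k)` -/
noncomputable def allC (f : ℕ → Bool) (k : ℕ) : ℕ → Bool :=
  Nat.rec (motive := fun _ => ℕ → Bool) f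
    (fun k ih a => Bool.rec (motive := fun _ => Bool) false (ih (Nat.add a (Nat.pow (nat_lit 2) k))) (ih a)) k

theorem allC_succ (f : ℕ → Bool) (k a : ℕ) : allC f (k + 1) a =
    Bool.rec (motive := fun _ => Bool) false (allC f k (a + 2 ^ k)) (allC f k a) := rfl

theorem allC_spec (f : ℕ → Bool) (k : ℕ) : ∀ a, allC f k a = true → ∀ n, a ≤ n → n < a + 2 ^ k → f n = true := by
  induction k with
  | zero =>
    intro a h n h1 h2
    have : n = a := by simp at h2; omega
    rw [this]; exact h
  | succ k ih =>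
    intro a h n h1 h2
    rw [allC_succ] at h
    rcases hb : allC f k a with _ | _
    · rw [hb] at h
      exact absurd h Bool.false_ne_true
    · rw [hb] at h
      rcases Nat.lt_or_ge n (a + 2 ^ k) with h3 | h3
      · exact ih a hb n h1 h3
      · exact ih _ h n h3 (by rw [pow_succ] at h2; omega)

/-- no prime factor below `q` and `m < q^4` leave at most three prime factors -/
theorem omega_leC {m q P : ℕ} (hP : ∀ p, p < q → p.Prime → p ∣ P) (hc : Nat.gcd m P = 1) (hm0 : 0 < m)
    (hm : m < q ^ 4) : ArithmeticFunction.cardFactors m ≤ 3 := by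
  by_contra hcon
  rw [not_le] at hcon
  have hlen : ArithmeticFunction.cardFactors m = m.primeFactorsList.length := rfl
  have hq : ∀ x ∈ m.primeFactorsList, q ≤ x := by
    intro x hx
    by_contra hlt
    rw [not_le] at hlt
    have hxp := Nat.prime_of_mem_primeFactorsList hx
    have h1 : x ∣ Nat.gcd m P := Nat.dvd_gcd (Nat.dvd_of_mem_primeFactorsList hx) (hP x hlt hxp)
    rw [hc] at h1
    exact hxp.one_lt.ne' (Nat.dvd_one.mp h1)
  have h2 := List.pow_card_le_prod m.primeFactorsList q hq
  rw [Nat.prod_primeFactorsList hm0.ne'] at h2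
  have hq0 : 0 < q := by
    rcases Nat.eq_zero_or_pos q with h | h
    · rw [h] at hm; simp at hm
    · exact h
  have h3 : q ^ 4 ≤ q ^ m.primeFactorsList.length := Nat.pow_le_pow_right hq0 (by omega)
  omega

/-- the base `n² - 1` (`n` even) or `n²` (`n` odd) -/
def bas (n : ℕ) : ℕ := Nat.sub (Nat.add (Nat.mul n n) (Nat.mod n (nat_lit 2))) (nat_lit 1)

theorem fin3 {n q P k t : ℕ} (hn : 0 < n) (hP : ∀ p, p < q → p.Prime → p ∣ P) (hq : n + 1 ≤ q ^ 2)
    (hf : atl P (bas n) k t = true) (hk : 2 * k ≤ Nat.totient n) : t ≤ (GS n).ncard := by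
  refine (atl_spec P _ k t hf).trans ?_
  rw [← Set.ncard_coe_finset]
  apply Set.ncard_le_ncard _ (GS_fin n)
  intro m hm
  rw [Finset.mem_coe, Finset.mem_filter, Finset.mem_Ioc] at hm
  obtain ⟨⟨h1, h2⟩, h3⟩ := hm
  have hb : bas n = n ^ 2 + n % 2 - 1 := by
    have e : n * n = n ^ 2 := (sq n).symm
    rw [← e]
    rfl
  have hn2 : 0 < n ^ 2 := by positivity
  have hmod : n % 2 < 2 := Nat.mod_lt _ (by norm_num)
  rw [hb] at h1 h2
  refine ⟨by omega, by omega, omega_leC hP h3 (by omega) ?_, fun p hp hpm => ?_⟩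
  · have h4 : Nat.totient n ≤ n := Nat.totient_le n
    have h5 : (n + 1) ^ 2 ≤ (q ^ 2) ^ 2 := Nat.pow_le_pow_left hq 2
    rw [← pow_mul] at h5
    norm_num at h5
    have h6 : m ≤ n ^ 2 + n := by omega
    nlinarith
  · have hqp : q ≤ p := by
      by_contra hlt
      rw [not_le] at hlt
      have h4 : p ∣ Nat.gcd m P := Nat.dvd_gcd hpm (hP p hlt hp)
      rw [h3] at h4
      exact hp.one_lt.ne' (Nat.dvd_one.mp h4)
    have h5 : q ^ 2 ≤ p ^ 2 := Nat.pow_le_pow_left hqp 2
    have h6 : p ^ 2 ≤ p ^ 8 := Nat.pow_le_pow_right hp.pos (by norm_num)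
    omega

/-- one element for small `n` -/
noncomputable def one1 (P m k : ℕ) : Bool :=
  Nat.rec (motive := fun _ => Bool) false
    (fun k ih => Bool.rec (motive := fun _ => Bool) ih true
      (Nat.beq (Nat.gcd (Nat.add m (Nat.succ k)) P) (nat_lit 1))) k

theorem one1_spec (P m k : ℕ) (h : one1 P m k = true) : ∃ j, 1 ≤ j ∧ j ≤ k ∧ Nat.gcd (m + j) P = 1 := by
  induction k with
  | zero => exact absurd h Bool.false_ne_true
  | succ k ih =>
    have h1 : one1 P m (k + 1) = Bool.rec (motive := fun _ => Bool) (one1 P m k) true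
      (Nat.beq (Nat.gcd (m + (k + 1)) P) 1) := rfl
    rw [h1] at h
    rcases hg : Nat.beq (Nat.gcd (m + (k + 1)) P) 1 with _ | _
    · rw [hg] at h
      obtain ⟨j, h2, h3, h4⟩ := ih h
      exact ⟨j, h2, by omega, h4⟩
    · exact ⟨k + 1, by omega, le_rfl, Nat.eq_of_beq_eq_true hg⟩

theorem fin1 {n q P : ℕ} (hn : 0 < n) (hP : ∀ p, p < q → p.Prime → p ∣ P) (hq : n + 1 ≤ q ^ 2)
    (hf : one1 P (n * n) (Nat.totient n) = true) : 1 ≤ (GS n).ncard := by
  obtain ⟨j, h1, h2, h3⟩ := one1_spec P _ _ hf
  rw [Nat.one_le_iff_ne_zero, ← Nat.pos_iff_ne_zero, Set.ncard_pos (GS_fin n)]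
  have e : n * n = n ^ 2 := (sq n).symm
  rw [e] at h3
  refine ⟨n ^ 2 + j, by omega, by omega, omega_leC hP h3 (by omega) ?_, fun p hp hpm => ?_⟩
  · have h4 : Nat.totient n ≤ n := Nat.totient_le n
    have h5 : (n + 1) ^ 2 ≤ (q ^ 2) ^ 2 := Nat.pow_le_pow_left hq 2
    rw [← pow_mul] at h5
    norm_num at h5
    nlinarith
  · have hqp : q ≤ p := by
      by_contra hlt
      rw [not_le] at hlt
      have h4 : p ∣ Nat.gcd (n ^ 2 + j) P := Nat.dvd_gcd hpm (hP p hlt hp)
      rw [h3] at h4
      exact hp.one_lt.ne' (Nat.dvd_one.mp h4)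
    have h5 : q ^ 2 ≤ p ^ 2 := Nat.pow_le_pow_left hqp 2
    have h6 : p ^ 2 ≤ p ^ 8 := Nat.pow_le_pow_right hp.pos (by norm_num)
    omega

theorem good3_of {n h t : ℕ} (h1 : 2 ^ h ≤ n + 1) (h2 : 1000 * Nat.totient n ≤ 76230 * h * t)
    (h3 : t ≤ (GS n).ncard) : Good3 n := by
  have h4 : ((2 : ℝ) ^ h) ≤ (n : ℝ) + 1 := by exact_mod_cast h1
  have h5 : Real.log ((2 : ℝ) ^ h) ≤ Real.log ((n : ℝ) + 1) := Real.log_le_log (by positivity) h4
  rw [Real.log_pow] at h5
  have h6 := Real.log_two_gt_d9
  have h7 : (0 : ℝ) ≤ h := Nat.cast_nonneg h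
  have h8 : 693 * (h : ℝ) ≤ 1000 * Real.log ((n : ℝ) + 1) := by
    have : (h : ℝ) * (693 / 1000) ≤ h * Real.log 2 := mul_le_mul_of_nonneg_left (by linarith) h7
    linarith
  have h9 : 1000 * (Nat.totient n : ℝ) ≤ 76230 * (h : ℝ) * (t : ℝ) := by exact_mod_cast h2
  have h10 : (t : ℝ) ≤ ((GS n).ncard : ℝ) := by exact_mod_cast h3
  have h11 : (0 : ℝ) ≤ (t : ℝ) := Nat.cast_nonneg t
  have h12 : 110 * (693 * (h : ℝ)) * (t : ℝ) ≤
      110 * (1000 * Real.log ((n : ℝ) + 1)) * ((GS n).ncard : ℝ) := by
    apply mul_le_mul _ h10 h11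
    · have : (0 : ℝ) ≤ 693 * (h : ℝ) := by positivity
      linarith
    · linarith
  unfold Good3
  linarith

def P19C : ℕ := 9699690
def P43C : ℕ := 13082761331670030
def P167C : ℕ := 962947420735983927056946215901134429196419130606213075415963491270

/-- the list of ranges for `n < 512`: `(upper end, q, P)` -/
def segC (n : ℕ) : ℕ × ℕ :=
  bif Nat.blt n 4 then (2, 1) else bif Nat.blt n 9 then (3, 2) else bif Nat.blt n 25 then (5, 6) else
  bif Nat.blt n 49 then (7, 30) else bif Nat.blt n 121 then (11, 210) else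
  bif Nat.blt n 289 then (17, 30030) else (23, P19C)

noncomputable def chkSC (n : ℕ) : Bool :=
  Nat.beq n 0 || (Nat.ble (n + 1) ((segC n).1 ^ 2) && one1 (segC n).2 (n * n) (tcC n n))

theorem hP2C : ∀ p, p < 2 → p.Prime → p ∣ 1 := by decide
theorem hP3C : ∀ p, p < 3 → p.Prime → p ∣ 2 := by decide
theorem hP5C : ∀ p, p < 5 → p.Prime → p ∣ 6 := by decide
theorem hP7C : ∀ p, p < 7 → p.Prime → p ∣ 30 := by decide
theorem hP11C : ∀ p, p < 11 → p.Prime → p ∣ 210 := by decide +kernel
theorem hP17C : ∀ p, p < 17 → p.Prime → p ∣ 30030 := by decide +kernel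
theorem hP23C : ∀ p, p < 23 → p.Prime → p ∣ P19C := by decide +kernel
theorem hP47C : ∀ p, p < 47 → p.Prime → p ∣ P43C := by decide +kernel
theorem hP173C : ∀ p, p < 173 → p.Prime → p ∣ P167C := by decide +kernel

theorem segC_spec (n : ℕ) : ∀ p, p < (segC n).1 → p.Prime → p ∣ (segC n).2 := by
  rw [segC]
  cases Nat.blt n 4
  · rw [cond_false]
    cases Nat.blt n 9
    · rw [cond_false]
      cases Nat.blt n 25
      · rw [cond_false]
        cases Nat.blt n 49
        · rw [cond_false]
          cases Nat.blt n 121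
          · rw [cond_false]
            cases Nat.blt n 289
            · exact hP23C
            · exact hP17C
          · exact hP11C
        · exact hP7C
      · exact hP5C
    · exact hP3C
  · exact hP2C

theorem chkSC_all : allC chkSC 9 0 = true := by decide +kernel

noncomputable def chkMC (n : ℕ) : Bool :=
  atl (nat_lit 13082761331670030) (bas n) (nat_lit 32) (nat_lit 3)

noncomputable def chkLC (n : ℕ) : Bool :=
  atl (nat_lit 962947420735983927056946215901134429196419130606213075415963491270) (bas n)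
    (nat_lit 128) (nat_lit 5)

theorem chkMC_1 : allC chkMC 10 512 = true := by decide +kernel
theorem chkMC_2 : allC chkMC 9 1536 = true := by decide +kernel
theorem chkLC_1 : allC chkLC 11 2048 = true := by decide +kernel
theorem chkLC_2 : allC chkLC 12 4096 = true := by decide +kernel
theorem chkLC_3 : allC chkLC 12 8192 = true := by decide +kernel
theorem chkLC_4 : allC chkLC 12 12288 = true := by decide +kernel
theorem chkLC_5 : allC chkLC 12 16384 = true := by decide +kernel
theorem chkLC_6 : allC chkLC 12 20480 = true := by decide +kernel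
theorem chkLC_7 : allC chkLC 12 24576 = true := by decide +kernel

theorem kr3 (n : ℕ) (hn : 0 < n) (h12 : Nat.totient n < 4096) : Good3 n := by
  have h28 : n < 28672 := by
    have h1 := Pool.Agent.Helper1.SQ.totL 7 4096 n hn (by decide) h12
    omega
  rcases Nat.lt_or_ge n 512 with h | h
  · have hc := allC_spec chkSC 9 0 chkSC_all n (by omega) (by norm_num; omega)
    rw [chkSC, Bool.or_eq_true, Bool.and_eq_true, Nat.beq_eq, Nat.ble_eq, tcC_self] at hc
    rcases hc with hc | hc
    · omega
    · have h1 := fin1 hn (segC_spec n) hc.1 hc.2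
      have h2 : Nat.totient n ≤ n := Nat.totient_le n
      rcases Nat.lt_or_ge n 64 with h3 | h3
      · exact good3_of (h := 1) (t := 1) (by norm_num; omega) (by omega) h1
      rcases Nat.lt_or_ge n 256 with h4 | h4
      · exact good3_of (h := 6) (t := 1) (by norm_num; omega) (by omega) h1
      · exact good3_of (h := 8) (t := 1) (by norm_num; omega) (by omega) h1
  have hT : n ≤ 8 * Nat.totient n :=
    Pool.Agent.Helper1.SQ.totL 8 28672 n hn (by decide) (lt_of_le_of_lt (Nat.totient_le n) h28)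
  rcases Nat.lt_or_ge n 2048 with h1 | h1
  · have hc : chkMC n = true := by
      rcases Nat.lt_or_ge n 1536 with h2 | h2
      · exact allC_spec chkMC 10 512 chkMC_1 n h (by norm_num; omega)
      · exact allC_spec chkMC 9 1536 chkMC_2 n h2 (by norm_num; omega)
    have h2 : Nat.totient n ≤ n := Nat.totient_le n
    exact good3_of (h := 9) (t := 3) (by norm_num; omega) (by omega)
      (fin3 (k := 32) hn hP47C (by norm_num; omega) hc (by omega))
  · have hc : chkLC n = true := by
      rcases Nat.lt_or_ge n 4096 with h2 | h2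
      · exact allC_spec chkLC 11 2048 chkLC_1 n h1 (by norm_num; omega)
      rcases Nat.lt_or_ge n 8192 with h3 | h3
      · exact allC_spec chkLC 12 4096 chkLC_2 n h2 (by norm_num; omega)
      rcases Nat.lt_or_ge n 12288 with h4 | h4
      · exact allC_spec chkLC 12 8192 chkLC_3 n h3 (by norm_num; omega)
      rcases Nat.lt_or_ge n 16384 with h5 | h5
      · exact allC_spec chkLC 12 12288 chkLC_4 n h4 (by norm_num; omega)
      rcases Nat.lt_or_ge n 20480 with h6 | h6
      · exact allC_spec chkLC 12 16384 chkLC_5 n h5 (by norm_num; omega)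
      rcases Nat.lt_or_ge n 24576 with h7 | h7
      · exact allC_spec chkLC 12 20480 chkLC_6 n h6 (by norm_num; omega)
      · exact allC_spec chkLC 12 24576 chkLC_7 n h7 (by norm_num; omega)
    exact good3_of (h := 11) (t := 5) (by norm_num; omega) (by omega)
      (fin3 (k := 128) hn hP173C (by norm_num; omega) hc (by omega))

end Pool.Agent.Helper1.SQ.C
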