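import Pool.Agent.Helper1.SC.Asy
import Pool.Agent.Helper1.SC.K3
import Pool.Agent.Helper1.SC.Ct0
import Pool.Agent.Helper1.SC.Ct1
import Pool.Agent.Helper1.SC.Ct2
import Pool.Agent.Helper1.SC.Ct3
import Pool.Agent.Helper1.SC.Ct4
import Pool.Agent.Helper1.SC.Ct5
import Pool.Agent.Helper1.SC.Ct6
import Pool.Agent.Helper1.SC.Ct7
import Pool.Agent.Helper1.SC.Ct8
import Pool.Agent.Helper1.SQ.MT2
import Pool.Agent.Helper7.SQ.BH
import Pool.Agent.Helper15.SQ.T
import Pool.Agent.Helper25.SQ.S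
import Pool.Agent.Helper30.SQ.HP
import Pool.Agent.Helper40.SQ.D
import Pool.Agent.Helper55.SQ.A
import Pool.Agent.Helper68.SQ.L

/-!
# Project SC: assembly of the counting form
-/

set_option autoImplicit false
open Finset

namespace Pool.Agent.Helper1.SQ

theorem hypC : Hyp where
  tab := Pool.Agent.Helper15.SQ.tab
  cardB := Pool.Agent.Helper40.SQ.cardB
  sumS := Pool.Agent.Helper25.SQ.sumS Pool.Agent.Helper55.SQ.mertA
  sumW := Pool.Agent.Helper25.SQ.sumW Pool.Agent.Helper55.SQ.mertA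
  sumV := Pool.Agent.Helper25.SQ.sumV Pool.Agent.Helper55.SQ.mertA
  bhUp := bhUp Pool.Agent.Helper40.SQ.disc
  bhLow := bhLow Pool.Agent.Helper40.SQ.disc
  hpb := hpb Pool.Agent.Helper40.SQ.disc
  mt := mt2 wt
  totL := totL

/-- For every `n ≥ 1` the interval `(n², n² + φ(n)]` contains at least `φ(n) / (110 log (n + 1))`
integers with at most three prime factors, counted with multiplicity, all of them larger than
`n^(1/8)`. -/
theorem target3 (n : ℕ) (hn : 0 < n) : C.Good3 n := by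
  by_cases h12 : Nat.totient n < 2 ^ 12
  · exact C.kr3 n hn (by norm_num at h12 ⊢; exact h12)
  rw [not_lt] at h12
  by_cases h0 : Nat.totient n < 2 ^ 707
  · exact C.goodC0 hypC n hn h12 h0
  rw [not_lt] at h0
  clear h12
  by_cases h1 : Nat.totient n < 2 ^ 1304
  · exact C.goodC1 hypC n hn h0 h1
  rw [not_lt] at h1
  clear h0
  by_cases h2 : Nat.totient n < 2 ^ 2001
  · exact C.goodC2 hypC n hn h1 h2
  rw [not_lt] at h2
  clear h1
  by_cases h3 : Nat.totient n < 2 ^ 2556
  · exact C.goodC3 hypC n hn h2 h3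
  rw [not_lt] at h3
  clear h2
  by_cases h4 : Nat.totient n < 2 ^ 3072
  · exact C.goodC4 hypC n hn h3 h4
  rw [not_lt] at h4
  clear h3
  by_cases h5 : Nat.totient n < 2 ^ 3691
  · exact C.goodC5 hypC n hn h4 h5
  rw [not_lt] at h5
  clear h4
  by_cases h6 : Nat.totient n < 2 ^ 4172
  · exact C.goodC6 hypC n hn h5 h6
  rw [not_lt] at h6
  clear h5
  by_cases h7 : Nat.totient n < 2 ^ 4715
  · exact C.goodC7 hypC n hn h6 h7
  rw [not_lt] at h7
  clear h6
  by_cases h8 : Nat.totient n < 2 ^ 5076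
  · exact C.goodC8 hypC n hn h7 h8
  rw [not_lt] at h8
  clear h7
  exact C2.final3 hypC Pool.Agent.Helper25.SQ.hrLog C2.cert3 n hn 5076 (by norm_num) h8

end Pool.Agent.Helper1.SQ
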